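import Pool.Agent.R203.IF.FinTwo
import Pool.Agent.Y467.GE.MG
import Pool.Agent.Y165.GE.CG
import Pool.Agent.Y911.GE.SET
import Pool.Agent.Y26.GE.KUHN

/-!
# Short periodic geodesics from an isometric involution whose fixed point set is contractible in `X`

`X` is a compact metric space in which any two points are joined by a minimal geodesic and minimal
geodesics between points at distance less than `r` are unique (every closed Riemannian manifold).
Let `σ` be an isometric involution of `X` with fixed point set `F`, `p` in `F`. No homogeneity is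
assumed.

1. Suppose that `F` can be contracted in `X` to `p` along tracks of length at most `L` (`Tracks`).
   Let `K` be a compact metric space of dimension at most `q`, `q ≥ 1`, and `f : K → X` a map with
   `f = p` on `A`. Then `f` can be deformed relatively to `A` into `F`, or there is a periodic
   geodesic of length at most `4 q diam X + 2 (q - 1) L`.
2. In particular there is such a geodesic, with `q = n`, if `X` has dimension at most `n` and cannot
   be deformed into `F` (closed manifolds, `σ ≠ 1`), and if there is a map of the `q`-cube to `X`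
   with boundary at `p` which cannot be deformed relatively to the boundary into `F`.
3. If every point of `F` is joined to `p` by a unique minimal geodesic (`F` does not meet the cut
   locus of `p`), then 1. holds with `L = diam X`; so, if `X` has dimension at most `n` and cannot
   be deformed into `F`, there is a periodic geodesic of length at most `(6 n - 2) diam X`.
-/

set_option autoImplicit false

open Set Topology Filter

namespace Pool.Agent.Results.MP_3eff7f_gt.InvolutionContractibleFixedSet

open Pool.Agent.Y489.GE Pool.Agent.R203.IF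

/-- unique minimal geodesics from the fixed points to `p` -/
theorem tracks_of_unique (X : Type) [MetricSpace X] [CompactSpace X] (σ : X → X) (p : X)
    (hX : GeodSpace X)
    (hF : ∀ y : X, σ y = y → ∀ z w : X, dist y z + dist z p = dist y p →
      dist y w + dist w p = dist y p → dist y z = dist y w → z = w) :
    ∃ Θ : X → ℝ → X, Tracks X σ p (Metric.diam (univ : Set X)) Θ := by
  have hbd : Bornology.IsBounded (univ : Set X) := isCompact_univ.isBounded
  have hdD : ∀ x y : X, dist x y ≤ Metric.diam (univ : Set X) := fun x y =>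
    Metric.dist_le_diam_of_mem hbd (mem_univ x) (mem_univ y)
  choose c hc0 hc1 hcd using fun y => hX y p
  set τ : X → ℝ → ℝ := fun y t => max 0 (min t (dist y p)) with hτ
  have hτ0 : ∀ y t, 0 ≤ τ y t := fun y t => le_max_left _ _
  have hτ1 : ∀ y t, τ y t ≤ dist y p := fun y t => max_le dist_nonneg (min_le_right _ _)
  have hτI : ∀ y t, τ y t / dist y p ∈ Icc (0 : ℝ) 1 := fun y t =>
    ⟨div_nonneg (hτ0 y t) dist_nonneg, div_le_one_of_le₀ (hτ1 y t) dist_nonneg⟩
  have hmul : ∀ y t, τ y t / dist y p * dist y p = τ y t := by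
    intro y t
    rcases eq_or_ne (dist y p) 0 with h | h
    · have h1 := hτ1 y t
      have h2 := hτ0 y t
      rw [h] at h1
      rw [h, mul_zero]
      linarith
    · exact div_mul_cancel₀ _ h
  set Θ : X → ℝ → X := fun y t => c y (τ y t / dist y p) with hΘ
  have hl : ∀ y t, dist y (Θ y t) = τ y t := by
    intro y t
    have h1 := hcd y 0 ⟨le_rfl, zero_le_one⟩ _ (hτI y t)
    rw [hc0, zero_sub, abs_neg, abs_of_nonneg (hτI y t).1, hmul] at h1
    exact h1
  have hrt : ∀ y t, dist (Θ y t) p = dist y p - τ y t := by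
    intro y t
    have h1 := hcd y _ (hτI y t) 1 ⟨zero_le_one, le_rfl⟩
    rw [hc1, abs_sub_comm, abs_of_nonneg (by linarith [(hτI y t).2]), sub_mul, one_mul,
      hmul] at h1
    exact h1
  have hτc : ∀ t, Continuous fun y => τ y t := fun t =>
    continuous_const.max (continuous_const.min (continuous_id.dist continuous_const))
  refine ⟨Θ, ?_, ?_, ?_⟩
  · rw [continuousOn_pi]
    intro t y hy
    show Tendsto (fun y => Θ y t) (𝓝[Fx σ] y) (𝓝 (Θ y t))
    rw [tendsto_iff_ultrafilter]
    intro g hg
    have hg1 : (g : Filter X) ≤ 𝓝 y := hg.trans nhdsWithin_le_nhds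
    obtain ⟨w, -, hw⟩ := (isCompact_univ : IsCompact (univ : Set X)).ultrafilter_le_nhds
      (g.map (fun y => Θ y t)) (by simp)
    have hw' : Tendsto (fun y => Θ y t) (g : Filter X) (𝓝 w) := hw
    have hx : Tendsto (fun y : X => y) (g : Filter X) (𝓝 y) := hg1
    have hτt : Tendsto (fun y => τ y t) (g : Filter X) (𝓝 (τ y t)) :=
      ((hτc t).tendsto y).mono_left hg1
    have e1 : dist y w = τ y t := by
      refine tendsto_nhds_unique (hx.dist hw') (hτt.congr fun z => ?_)
      exact (hl z t).symm
    have e2 : dist w p = dist y p - τ y t := by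
      refine tendsto_nhds_unique (hw'.dist tendsto_const_nhds)
        (((hx.dist tendsto_const_nhds).sub hτt).congr fun z => ?_)
      exact (hrt z t).symm
    have e3 : Θ y t = w := by
      refine hF y hy (Θ y t) w ?_ ?_ ?_
      · rw [hl, hrt]; ring
      · rw [e1, e2]; ring
      · rw [hl, e1]
    rw [e3]
    exact hw'
  · funext t
    have h1 := hl p t
    have h2 := hτ1 p t
    have h3 := hτ0 p t
    rw [dist_self] at h2
    have h4 : τ p t = 0 := le_antisymm h2 h3
    rw [h4] at h1
    exact (dist_eq_zero.1 h1).symm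
  · intro y hy
    refine ⟨fun s t => ?_, fun t ht => ?_, fun t ht => ?_⟩
    · have h1 := hcd y _ (hτI y s) _ (hτI y t)
      have h2 : |τ y s / dist y p - τ y t / dist y p| * dist y p = |τ y s - τ y t| := by
        rw [← abs_of_nonneg (dist_nonneg (x := y) (y := p)), ← abs_mul, sub_mul,
          abs_of_nonneg (dist_nonneg (x := y) (y := p)), hmul, hmul]
      rw [h2] at h1
      refine h1.le.trans ?_
      refine (abs_max_sub_max_le_max _ _ _ _).trans ?_
      rw [sub_self, abs_zero]
      refine max_le (abs_nonneg _) ?_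
      refine (abs_min_sub_min_le_max _ _ _ _).trans ?_
      rw [sub_self, abs_zero]
      exact max_le le_rfl (abs_nonneg _)
    · have h1 := hl y t
      have h2 : τ y t = 0 := max_eq_left ((min_le_left _ _).trans ht)
      rw [h2] at h1
      exact (dist_eq_zero.1 h1).symm
    · have h1 := hrt y t
      have h2 : τ y t = dist y p := by
        have h3 : dist y p ≤ t := (hdD y p).trans ht
        simp only [hτ]
        rw [min_eq_right h3, max_eq_right dist_nonneg]
      rw [h2, sub_self] at h1
      exact dist_eq_zero.1 h1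

theorem result (X : Type) [MetricSpace X] [CompactSpace X] (σ : X → X) (p : X) (r : ℝ)
    (hr : 0 < r) (hX : GeodSpace X) (hU : UniqGeod X r) (hσ : Isometry σ)
    (hσ2 : ∀ x, σ (σ x) = x) (hp : σ p = p) :
    (∀ (L : ℝ) (Θ : X → ℝ → X), 0 ≤ L → Tracks X σ p L Θ →
      (∀ q : ℕ, 1 ≤ q →
        ¬ ClosedGeod X (4 * q * Metric.diam (univ : Set X) + 2 * (q - 1) * L) →
        ∀ (K : Type) [MetricSpace K] [CompactSpace K], CovDim K q → ∀ (f : K → X) (A : Set K),
        Continuous f → (∀ k ∈ A, f k = p) →
        ∃ H : K → ℝ → X, Continuous (fun z : K × ℝ => H z.1 z.2) ∧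
          (∀ k, σ (H k 0) = H k 0) ∧ (∀ k, H k 1 = f k) ∧ ∀ k ∈ A, ∀ s, H k s = p) ∧
      (∀ n : ℕ, 1 ≤ n → CovDim X n →
        (¬ ∃ g : C(X, X), (∀ x, σ (g x) = g x) ∧ g.Homotopic (ContinuousMap.id X)) →
        ClosedGeod X (4 * n * Metric.diam (univ : Set X) + 2 * (n - 1) * L)) ∧
      ∀ (q : ℕ) (f : GenLoop (Fin q) X p), 1 ≤ q →
        (¬ ∃ g : GenLoop (Fin q) X p, (∀ t, σ (g t) = g t) ∧ GenLoop.Homotopic g f) →
        ClosedGeod X (4 * q * Metric.diam (univ : Set X) + 2 * (q - 1) * L)) ∧
    ((∀ y : X, σ y = y → ∀ z w : X, dist y z + dist z p = dist y p →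
      dist y w + dist w p = dist y p → dist y z = dist y w → z = w) →
      ∀ n : ℕ, 1 ≤ n → CovDim X n →
        (¬ ∃ g : C(X, X), (∀ x, σ (g x) = g x) ∧ g.Homotopic (ContinuousMap.id X)) →
        ClosedGeod X ((6 * n - 2) * Metric.diam (univ : Set X))) := by
  have hCORE : ∀ (L : ℝ) (Θ : X → ℝ → X), 0 ≤ L → Tracks X σ p L Θ → ∀ q : ℕ, 1 ≤ q →
        ¬ ClosedGeod X (4 * q * Metric.diam (univ : Set X) + 2 * (q - 1) * L) →
        ∀ (K : Type) [MetricSpace K] [CompactSpace K], CovDim K q → ∀ (f : K → X) (A : Set K),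
        Continuous f → (∀ k ∈ A, f k = p) →
        ∃ H : K → ℝ → X, Continuous (fun z : K × ℝ => H z.1 z.2) ∧
          (∀ k, σ (H k 0) = H k 0) ∧ (∀ k, H k 1 = f k) ∧ ∀ k ∈ A, ∀ s, H k s = p := by
    intro L Θ hL hΘ q hq hno K _ _ hK f A hf hA
    exact mainTwo Pool.Agent.Y467.GE.t_MG Pool.Agent.Y165.GE.t_CG Pool.Agent.Y911.GE.t_SET X σ hσ
      hσ2 p hp r L hr hL hX hU Θ hΘ q hq K hK f hf A hA hno
  have hDIM : ∀ (L : ℝ) (Θ : X → ℝ → X), 0 ≤ L → Tracks X σ p L Θ → ∀ n : ℕ, 1 ≤ n →
        CovDim X n →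
        (¬ ∃ g : C(X, X), (∀ x, σ (g x) = g x) ∧ g.Homotopic (ContinuousMap.id X)) →
        ClosedGeod X (4 * n * Metric.diam (univ : Set X) + 2 * (n - 1) * L) := by
    intro L Θ hL hΘ n hn hC hdef
    by_contra hno
    apply hdef
    obtain ⟨H, h1, h2, h3, _⟩ := hCORE L Θ hL hΘ n hn hno X hC (fun x => x) ∅ continuous_id
      (fun k hk => hk.elim)
    refine ⟨⟨fun x => H x 0, h1.comp (continuous_id.prodMk continuous_const)⟩, h2,
      ⟨⟨⟨fun z => H z.2 z.1.1, ?_⟩, ?_, ?_⟩⟩⟩
    · exact h1.comp (continuous_snd.prodMk (continuous_subtype_val.comp continuous_fst))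
    · intro k
      rfl
    · intro k
      exact h3 k
  refine ⟨fun L Θ hL hΘ => ⟨fun q hq hno K _ _ hK f A hf hA =>
    hCORE L Θ hL hΘ q hq hno K hK f A hf hA, hDIM L Θ hL hΘ, ?_⟩, ?_⟩
  · intro q f hq hdef
    by_contra hno
    apply hdef
    obtain ⟨H, h1, h2, h3, h4⟩ := hCORE L Θ hL hΘ q hq hno _ (Pool.Agent.Y26.GE.t_KUHN q)
      (fun t => f t) (Cube.boundary (Fin q)) (map_continuous f.1) f.2
    refine ⟨⟨⟨fun t => H t 0, h1.comp (continuous_id.prodMk continuous_const)⟩,
      fun t ht => h4 t ht 0⟩, h2, ⟨⟨⟨⟨fun z => H z.2 z.1.1, ?_⟩, ?_, ?_⟩, ?_⟩⟩⟩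
    · exact h1.comp (continuous_snd.prodMk (continuous_subtype_val.comp continuous_fst))
    · intro k
      rfl
    · intro k
      exact h3 k
    · intro t k hk
      exact (h4 k hk _).trans (h4 k hk 0).symm
  · intro hF n hn hC hdef
    obtain ⟨Θ, hΘ⟩ := tracks_of_unique X σ p hX hF
    have h1 := hDIM _ Θ Metric.diam_nonneg hΘ n hn hC hdef
    have h2 : 4 * (n : ℝ) * Metric.diam (univ : Set X) +
        2 * (n - 1) * Metric.diam (univ : Set X) = (6 * n - 2) * Metric.diam (univ : Set X) := by
      ring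
    rwa [h2] at h1

end Pool.Agent.Results.MP_3eff7f_gt.InvolutionContractibleFixedSet
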