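import Pool.Agent.R203.IF.Fin
import Pool.Agent.R609.IF.PGF
import Pool.Agent.R520.IF.RECF
import Pool.Agent.R441.IF.OMF
import Pool.Agent.R123.IF.CPF
import Pool.Agent.Y467.GE.MG
import Pool.Agent.Y165.GE.CG
import Pool.Agent.Y911.GE.LIFT
import Pool.Agent.Y911.GE.SET
import Pool.Agent.Y26.GE.KUHN

/-!
# Short periodic geodesics from an isometric involution with connected fixed point set

`X` is a compact metric space in which any two points are joined by a minimal geodesic and minimal
geodesics between points at distance less than `r` are unique (every closed Riemannian manifold).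
Let `σ` be an isometric involution of `X` and `σ p = p`.

1. Suppose that points can be pushed along the fixed point set `F` of `σ` to `p` by `lam`-Lipschitz
   maps of `X` which commute with `σ` (`PushS`). Let `K` be a compact metric space of dimension at
   most `q`, `q ≥ 1`, and `f : K → X` a map with `f = p` on `A`. Then `f` can be deformed relatively
   to `A` into `F`, or there is a periodic geodesic of length at most
   `4 (1 + lam + ... + lam ^ (q - 1)) diam X`.
2. In particular there is such a geodesic, with `q = n`, if `X` has dimension at most `n` and cannot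
   be deformed into `F` (closed manifolds, `σ ≠ 1`), and if there is a map of the `q`-cube to `X`
   with boundary at `p` which cannot be deformed relatively to the boundary into `F`.
3. The hypothesis holds with `lam = 1` if `F = {p}`, and with `lam` if a topological group acts on
   `X` by `lam`-Lipschitz maps commuting with `σ` and its orbit map has a local section over `F` near
   `p`. So if a compact Lie group acts on the closed `n`-manifold `X` by isometries commuting with
   `σ ≠ 1`, transitively on `F`, there is a periodic geodesic of length at most `4 n diam X`. For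
   example, this holds with `12 diam X` for every metric on `S^3` invariant under a circle action
   without fixed points for which the element of order two has fixed points.
-/

set_option autoImplicit false

open Set Topology

namespace Pool.Agent.Results.MP_3eff7f_gt.InvolutionTransitiveFixedSet

open Pool.Agent.Y489.GE Pool.Agent.R203.IF

theorem result :
    (∀ (X : Type) [MetricSpace X] [CompactSpace X] (σ : X → X) (p : X) (r lam : ℝ), 0 < r →
      GeodSpace X → UniqGeod X r → Isometry σ → (∀ x, σ (σ x) = x) → σ p = p →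
      PushS X σ p lam →
      (∀ q : ℕ, 1 ≤ q →
        ¬ ClosedGeod X (4 * (∑ i ∈ Finset.range q, lam ^ i) * Metric.diam (univ : Set X)) →
        ∀ (K : Type) [MetricSpace K] [CompactSpace K], CovDim K q → ∀ (f : K → X) (A : Set K),
        Continuous f → (∀ k ∈ A, f k = p) →
        ∃ H : K → ℝ → X, Continuous (fun z : K × ℝ => H z.1 z.2) ∧
          (∀ k, σ (H k 0) = H k 0) ∧ (∀ k, H k 1 = f k) ∧ ∀ k ∈ A, ∀ s, H k s = p) ∧
      (∀ n : ℕ, 1 ≤ n → CovDim X n →
        (¬ ∃ g : C(X, X), (∀ x, σ (g x) = g x) ∧ g.Homotopic (ContinuousMap.id X)) →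
        ClosedGeod X (4 * (∑ i ∈ Finset.range n, lam ^ i) * Metric.diam (univ : Set X))) ∧
      ∀ (q : ℕ) (f : GenLoop (Fin q) X p), 1 ≤ q →
        (¬ ∃ g : GenLoop (Fin q) X p, (∀ t, σ (g t) = g t) ∧ GenLoop.Homotopic g f) →
        ClosedGeod X (4 * (∑ i ∈ Finset.range q, lam ^ i) * Metric.diam (univ : Set X))) ∧
    (∀ (X : Type) [MetricSpace X] (σ : X → X) (p : X), (∀ x, σ x = x ↔ x = p) → PushS X σ p 1) ∧
    ∀ (X G : Type) [MetricSpace X] [Group G] [TopologicalSpace G] [IsTopologicalGroup G]
      [MulAction G X] [ContinuousSMul G X] (σ : X → X) (p : X) (lam : ℝ), Continuous σ →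
      σ p = p → (∀ (g : G) (x y : X), dist (g • x) (g • y) ≤ lam * dist x y) →
      (∀ (g : G) (x : X), g • σ x = σ (g • x)) →
      (∃ U ∈ 𝓝 p, ∃ v : X → G, ContinuousOn v (U ∩ Fx σ) ∧ v p = 1 ∧
        ∀ x ∈ U, σ x = x → v x • p = x) → PushS X σ p lam := by
  have hCORE := core Pool.Agent.Y467.GE.t_MG Pool.Agent.Y165.GE.t_CG t_BKS
    Pool.Agent.R441.IF.t_OMF
    (Pool.Agent.R520.IF.t_RECF Pool.Agent.R123.IF.t_CPF Pool.Agent.R520.IF.t_STEPF)
    Pool.Agent.Y911.GE.t_SET
  refine ⟨?_, ?_, ?_⟩
  · intro X _ _ σ p r lam hr hX hU hσ hσ2 hp hP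
    refine ⟨?_, ?_, ?_⟩
    · intro q hq hno K _ _ hK f A hf hA
      exact hCORE X σ hσ hσ2 p hp r lam hr hX hU hP q hq K hK f hf A hA hno
    · intro n hn hC hdef
      by_contra hno
      apply hdef
      obtain ⟨H, h1, h2, h3, _⟩ := hCORE X σ hσ hσ2 p hp r lam hr hX hU hP n hn X hC
        (fun x => x) continuous_id ∅ (fun k hk => hk.elim) hno
      refine ⟨⟨fun x => H x 0, h1.comp (continuous_id.prodMk continuous_const)⟩, h2,
        ⟨⟨⟨fun z => H z.2 z.1.1, ?_⟩, ?_, ?_⟩⟩⟩
      · exact h1.comp (continuous_snd.prodMk (continuous_subtype_val.comp continuous_fst))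
      · intro k
        rfl
      · intro k
        exact h3 k
    · intro q f hq hdef
      by_contra hno
      apply hdef
      obtain ⟨H, h1, h2, h3, h4⟩ := hCORE X σ hσ hσ2 p hp r lam hr hX hU hP q hq _
        (Pool.Agent.Y26.GE.t_KUHN q) (fun t => f t) (map_continuous f.1)
        (Cube.boundary (Fin q)) f.2 hno
      refine ⟨⟨⟨fun t => H t 0, h1.comp (continuous_id.prodMk continuous_const)⟩,
        fun t ht => h4 t ht 0⟩, h2, ⟨⟨⟨⟨fun z => H z.2 z.1.1, ?_⟩, ?_, ?_⟩, ?_⟩⟩⟩
      · exact h1.comp (continuous_snd.prodMk (continuous_subtype_val.comp continuous_fst))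
      · intro k
        rfl
      · intro k
        exact h3 k
      · intro t k hk
        exact (h4 k hk _).trans (h4 k hk 0).symm
  · intro X _ σ p hσ K _ _ b hb hbσ hb0 hb1
    refine ⟨fun _ _ x => x, continuous_snd, fun k s x y => by rw [one_mul], ?_,
      fun _ _ _ _ => rfl, fun _ _ _ => rfl⟩
    intro k s
    exact (hσ _).1 (hbσ k s)
  · intro X G _ _ _ _ _ _ σ p lam hσ hp hG hcomm hsec
    exact Pool.Agent.R609.IF.t_PGF Pool.Agent.Y911.GE.t_LIFT X G σ p lam hσ hp hG hcomm hsec

end Pool.Agent.Results.MP_3eff7f_gt.InvolutionTransitiveFixedSet
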