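import Pool.Agent.R770.IV.Main

/-!
# Short periodic geodesics on closed manifolds with an isometric involution (Q2)

`X` is a compact metric space in which any two points are joined by a minimal geodesic and minimal
geodesics between points at distance less than `r` are unique (every closed Riemannian manifold).
No assumption is made on the topology of `X`.

* If `X` has an isometric involution whose fixed point set is not connected (empty, or with at
  least two components, e.g. with an isolated fixed point and another one), then there is a
  periodic geodesic of length at most `2 diam X`.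
* If `X` has two isometric involutions `φ`, `ψ` without common fixed point which generate a finite
  group (`(ψ φ)^k = 1`), then there is a periodic geodesic of length at most `2 k diam X`. More
  precisely, if `A`, `B` are disjoint relatively open and closed parts of the fixed point sets of
  `φ`, `ψ`, then there is a periodic geodesic of length at most `2 k d(A, B)`.
-/

set_option autoImplicit false

open Set Topology

namespace Pool.Agent.Results.MP_3eff7f_gt.IsometricInvolutions

open Pool.Agent.Y489.GE

theorem result (X : Type) [MetricSpace X] [CompactSpace X] [Nonempty X] (r : ℝ) (hr : 0 < r)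
    (hX : GeodSpace X) (hU : UniqGeod X r) :
    (∀ φ : X → X, Isometry φ → (∀ x, φ (φ x) = x) → ¬ IsConnected {x | φ x = x} →
      ClosedGeod X (2 * Metric.diam (univ : Set X))) ∧
    ∀ φ ψ : X → X, Isometry φ → Isometry ψ → (∀ x, φ (φ x) = x) → (∀ x, ψ (ψ x) = x) →
      ∀ k : ℕ, 0 < k → (∀ x, (ψ ∘ φ)^[k] x = x) →
        ((∀ x, ¬ (φ x = x ∧ ψ x = x)) → ClosedGeod X (2 * k * Metric.diam (univ : Set X))) ∧
        ∀ A B : Set X, A ⊆ {x | φ x = x} → B ⊆ {x | ψ x = x} → IsClosed A → IsClosed B →
          IsClosed ({x | φ x = x} \ A) → IsClosed ({x | ψ x = x} \ B) → Disjoint A B →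
            ∀ a ∈ A, ∀ b ∈ B, ClosedGeod X (2 * k * dist a b) :=
  ⟨fun φ iφ hφ hne => Pool.Agent.R770.IV.involution hX hr hU φ iφ hφ hne,
    fun φ ψ iφ iψ hφ hψ k hk hk' =>
      ⟨fun hne => Pool.Agent.R770.IV.dihedral_disjoint hX hr hU φ ψ iφ iψ hφ hψ k hk hk' hne,
        fun A B hA hB hAc hBc hA' hB' hd a ha b hb =>
          Pool.Agent.R770.IV.dihedral' hX hr hU φ ψ iφ iψ hφ hψ k hk hk' A B hA hB hAc hBc
            hA' hB' hd a b ha hb⟩⟩

end Pool.Agent.Results.MP_3eff7f_gt.IsometricInvolutions
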