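import Pool.Agent.R203.PP.Main
import Pool.Agent.Y467.GE.MG
import Pool.Agent.Y467.GE.CP
import Pool.Agent.Y467.GE.STEP
import Pool.Agent.Y812.GE.EN
import Pool.Agent.Y812.GE.REC
import Pool.Agent.Y165.GE.CG
import Pool.Agent.Y590.GE.BK
import Pool.Agent.Y911.GE.LIFT
import Pool.Agent.Y911.GE.SET
import Pool.Agent.Y50.GE.Om
import Pool.Agent.Y26.GE.KUHN
import Pool.Agent.Y686.GE.EIL
import Pool.Agent.Y903.GE.CUT
import Pool.Agent.Y438.GE.Thick
import Pool.Agent.Y427.GE.WID
import Pool.Agent.Y427.GE.BD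
import Pool.Agent.Y73.GE.Cone
import Pool.Agent.Y523.GE.EXT
import Pool.Agent.Y891.GE.NRV
import Pool.Agent.Y891.GE.SETL

/-!
# Short periodic geodesics on spaces with Lipschitz point pushing

`X` is a compact metric space in which any two points are joined by a minimal geodesic and minimal
geodesics between points at distance less than `r` are unique (every closed Riemannian manifold).
No group acts on `X`; instead points can be pushed back to `p` by `lam`-Lipschitz self-maps
(`Push X p lam`).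

1. If the `q`-th homotopy group of `X` is not trivial, `q ≥ 1`, there is a periodic geodesic of
   length at most `2 (1 + lam + ... + lam ^ (q - 1)) diam X`; the same with `n` in place of `q` if
   `X` has covering dimension at most `n` and is not contractible.
2. Category version: if `f : K → X` is not homotopic to a constant map and `K` is the union of
   `m + 1` open sets on which there are continuous families of paths of length at most `b` from `p`
   to `f k`, there is a periodic geodesic of length at most `2 (1 + lam + ... + lam ^ (m - 1)) b`.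
3. Volume and width: constants which depend only on the dimension and `lam`.
4. Criteria for `Push`: Lipschitz homogeneous spaces; spaces with a continuous division
   `ψ (x, x) = p`, `ψ (p, y) = y` which is `lam`-Lipschitz in `y` (H-spaces); homotopy retracts
   (in the Lipschitz sense) of spaces with `Push`, in particular of homogeneous spaces.
-/

set_option autoImplicit false

open Set Topology MeasureTheory

namespace Pool.Agent.Results.MP_3eff7f_gt.LipschitzPointPushing

open Pool.Agent.Y489.GE Pool.Agent.R203.PP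

theorem result :
    (∀ (X : Type) [MetricSpace X] [CompactSpace X] (p : X) (r lam : ℝ), 0 < r → GeodSpace X →
      UniqGeod X r → Push X p lam →
      (∀ q : ℕ, 1 ≤ q → Nontrivial (HomotopyGroup (Fin q) X p) →
        ClosedGeod X (2 * (∑ i ∈ Finset.range q, lam ^ i) * Metric.diam (univ : Set X))) ∧
      (∀ n : ℕ, 1 ≤ n → CovDim X n → ¬ ContractibleSpace X →
        ClosedGeod X (2 * (∑ i ∈ Finset.range n, lam ^ i) * Metric.diam (univ : Set X))) ∧
      ∀ (K : Type) [MetricSpace K] (f : C(K, X)) (m : ℕ) (b : ℝ) (U : ℕ → Set K)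
        (ρ : ℕ → K → ℝ → X), 0 < b → (∀ j, IsOpen (U j)) → (∀ k, ∃ j ≤ m, k ∈ U j) →
        (∀ j, ContinuousOn (ρ j) (U j)) → (∀ j, ∀ k ∈ U j, ρ j k ∈ Pa p b ∧ ρ j k b = f k) →
        ¬ f.Nullhomotopic → ClosedGeod X (2 * b * ∑ i ∈ Finset.range m, lam ^ i)) ∧
    (∀ n : ℕ, 1 ≤ n → ∀ lam : ℝ, 1 ≤ lam → ∃ C : ℝ, 0 < C ∧
      ∀ (X : Type) [MetricSpace X] [CompactSpace X] [MeasurableSpace X] [BorelSpace X] (r : ℝ),
      0 < r → GeodSpace X → UniqGeod X r → (∀ p : X, Push X p lam) → CovDim X n → ¬ Dom X n →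
      (∀ w : ℝ, 0 < w → Cov X w n → ClosedGeod X (C * w)) ∧
      (μH[(n : ℝ)] (univ : Set X) ≠ ⊤ →
        ClosedGeod X (C * (μH[(n : ℝ)] (univ : Set X)).toReal ^ (1 / (n : ℝ))))) ∧
    (∀ (X G : Type) [MetricSpace X] [Group G] [TopologicalSpace G] [IsTopologicalGroup G]
      [MulAction G X] [ContinuousSMul G X] (p : X) (lam : ℝ),
      (∀ (g : G) (x y : X), dist (g • x) (g • y) ≤ lam * dist x y) → LocSec X G p →
      Push X p lam) ∧
    (∀ (X : Type) [MetricSpace X] (p : X) (lam : ℝ) (ψ : X → X → X),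
      Continuous (fun z : X × X => ψ z.1 z.2) → (∀ x, ψ x x = p) → (∀ y, ψ p y = y) →
      (∀ x y z, dist (ψ x y) (ψ x z) ≤ lam * dist y z) → Push X p lam) ∧
    ∀ (X Y : Type) [MetricSpace X] [MetricSpace Y] (p : X) (y₀ : Y) (lam Lam α β : ℝ)
      (ι : X → Y) (ρ : Y → X) (h : ℝ → X → X), Push Y y₀ lam → Continuous ι → Continuous ρ →
      Continuous (fun z : ℝ × X => h z.1 z.2) → (∀ x y, dist (ι x) (ι y) ≤ α * dist x y) →
      (∀ x y, dist (ρ x) (ρ y) ≤ β * dist x y) → 0 ≤ lam → 0 ≤ β → β * (lam * α) ≤ Lam →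
      (∀ u x y, dist (h u x) (h u y) ≤ Lam * dist x y) → ι p = y₀ → (∀ u, h u p = p) →
      (∀ u ≤ 0, ∀ x, h u x = x) → (∀ u, 1 ≤ u → ∀ x, h u x = ρ (ι x)) → Push X p Lam := by
  have hBK : S_BK := Pool.Agent.Y590.GE.t_BK Pool.Agent.Y812.GE.t_EN
  have hREC : S_REC :=
    Pool.Agent.Y812.GE.t_REC Pool.Agent.Y467.GE.t_CP Pool.Agent.Y467.GE.t_STEP
  refine ⟨?_, ?_, ?_, ?_, ?_⟩
  · intro X _ _ p r lam hr hX hU hP
    obtain ⟨h1, h2⟩ := main Pool.Agent.Y467.GE.t_MG Pool.Agent.Y165.GE.t_CG hBK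
      Pool.Agent.Y50.GE.t_OM hREC Pool.Agent.Y911.GE.t_SET Pool.Agent.Y26.GE.t_KUHN X p r lam hr
      hX hU hP
    refine ⟨h1, h2, ?_⟩
    intro K _ f m b U ρ hb hUo hUc hρc hρ hf
    have : Nontrivial X := by
      by_contra hnt
      rw [not_nontrivial_iff_subsingleton] at hnt
      refine hf ⟨p, ?_⟩
      have : f = ContinuousMap.const K p := by
        ext k
        exact Subsingleton.elim _ _
      rw [this]
    exact cat_version Pool.Agent.Y467.GE.t_MG Pool.Agent.Y165.GE.t_CG hBK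
      Pool.Agent.Y50.GE.t_OM hREC X p r lam hr hX hU hP K f m b hb U ρ hUo hUc hρc hρ hf
  · intro n hn lam hlam
    exact main2 Pool.Agent.Y467.GE.t_MG Pool.Agent.Y165.GE.t_CG hBK Pool.Agent.Y50.GE.t_OM hREC
      Pool.Agent.Y891.GE.t_SETL
      (Pool.Agent.Y891.GE.t_NRV
        (Pool.Agent.Y523.GE.t_EXT Pool.Agent.Y73.GE.t_CONE
          (Pool.Agent.Y427.GE.t_BD Pool.Agent.Y26.GE.t_KUHN)))
      (Pool.Agent.Y427.GE.t_WID (Pool.Agent.Y903.GE.t_CUT Pool.Agent.Y686.GE.t_EIL)
        Pool.Agent.Y438.GE.t_THICK) n hn lam hlam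
  · intro X G _ _ _ _ _ _ p lam hG hs
    exact Push.of_group Pool.Agent.Y911.GE.t_LIFT hG hs
  · intro X _ p lam ψ hψ h1 h2 h3
    exact Push.of_division ψ hψ h1 h2 h3
  · intro X Y _ _ p y₀ lam Lam α β ι ρ h hY hι hρ hh hιL hρL hlam hβ hLam hhL hιp hhp hh0 hh1
    exact Push.retract hY ι ρ h hι hρ hh hιL hρL hlam hβ hLam hhL hιp hhp hh0 hh1

end Pool.Agent.Results.MP_3eff7f_gt.LipschitzPointPushing
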